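import Pool.Agent.Lib.helper26.CXHamH

namespace Pool.Agent.Results.MP_d994ca_lc.Hard
open Pool.Agent.Lib.CX Pool.Agent.Lib.helper7 Finset

/-- entry `(u, v)` of the matrix: `none` = no arc, `some w` = an arc of weight `w` -/
def wt (a : List (List (Option ℚ))) (u v : Fin a.length) : Option ℚ := (a.getD u []).getD v none

/-- square matrix, no loops, the reverse of every arc is an arc -/
def Symmetric (a : List (List (Option ℚ))) : Prop :=
  (∀ r ∈ a, r.length = a.length) ∧ (∀ v, wt a v v = none) ∧ ∀ u v, wt a u v ≠ none → wt a v u ≠ none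

/-- every directed cycle `f 0, …, f (k-1), f k = f 0` of negative weight has an even number of arcs -/
def EvenNearlyConservative (a : List (List (Option ℚ))) : Prop :=
  ∀ (k : ℕ) (f : ℕ → Fin a.length) (w : ℕ → ℚ), 2 ≤ k → f k = f 0 → Set.InjOn f (Set.Iio k) →
    (∀ i < k, wt a (f i) (f (i + 1)) = some (w i)) → ∑ i ∈ range k, w i < 0 → Even k

def F (a : Gr) (p q : ℕ) : Prop := (p < 2 * a.n ∧ p % 2 = 0 ∧ (q = p + 1 ∨ q = 2 * a.n)) ∨
  (p = 2 * a.n ∧ q % 2 = 1) ∨ (p % 2 = 1 ∧ q % 2 = 0 ∧ a.adjB (p / 2) (q / 2) = true)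
instance (a p q) : Decidable (F a p q) := by unfold F; infer_instance
def W (a : Gr) (p q : ℕ) : ℤ :=
  if F a p q then (if q = 2 * a.n then (a.n : ℤ) - 2 else if p % 2 = 0 ∧ p < 2 * a.n then -1 else 0) else 2 * (a.n : ℤ)
def E (a : Gr) (p q : ℕ) : Option ℚ := if F a p q ∨ F a q p then some (W a p q : ℚ) else none
def red (a : Gr) : List (List (Option ℚ)) :=
  if 3 ≤ a.1.length then (List.range (2 * a.1.length + 1)).map fun p => (List.range (2 * a.1.length + 1)).map fun q => E a p q
  else []

theorem wt_red (a : Gr) (u v : Fin (red a).length) : wt (red a) u v = E a u v := by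
  obtain ⟨u, hu⟩ := u
  obtain ⟨v, hv⟩ := v
  unfold wt
  unfold red at hu hv ⊢
  split_ifs at hu hv ⊢
  · simp at hu hv; simp [Nat.lt_succ_of_le hu, Nat.lt_succ_of_le hv]
  · simp at hu

theorem adj_lt {a : Gr} {u v : ℕ} (h : a.adjB u v = true) : u < a.n ∧ v < a.n ∧ u ≠ v := by
  simp only [Gr.adjB, decide_eq_true_eq] at h; exact ⟨h.1, h.2.1, h.2.2.1⟩

theorem symm (a : Gr) : Symmetric (red a) := by
  refine ⟨by unfold red; split_ifs <;> simp, fun v => ?_, fun u v => by simp [wt_red, E, or_comm]⟩
  rw [wt_red, E, if_neg]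
  rintro (h | h) <;> rcases h with h | h | h <;> omega

theorem of_ham (a : Gr) (h : Ham a.G) : ¬ EvenNearlyConservative (red a) := by
  obtain ⟨h3, c, c0, c1, c2, c3⟩ := ham_list h
  have hl : (red a).length = 2 * a.n + 1 := by simp [red, h3]
  let f : ℕ → ℕ := fun i => if i = 0 then 2 * c 0 else if i = 1 then 2 * a.n else 2 * c ((i - 1) / 2) + (i + 1) % 2
  have hf : ∀ i, f i < (red a).length := fun i => by
    have := c1 0; have := c1 ((i - 1) / 2); simp only [f]; split_ifs <;> omega
  have hF : ∀ i < 2 * a.n + 1, F a (f i) (f (i + 1)) ∧ W a (f i) (f (i + 1)) =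
      if i = 0 then (a.n : ℤ) - 2 else if i % 2 = 1 ∧ i ≠ 1 then -1 else 0 := fun i hi => by
    have := c1 0
    suffices h : F a (f i) (f (i + 1)) ∧ ((f (i + 1) = 2 * a.n ↔ i = 0) ∧
        (i ≠ 0 → (f i % 2 = 0 ∧ f i < 2 * a.n ↔ i % 2 = 1 ∧ i ≠ 1))) by
      refine ⟨h.1, ?_⟩
      simp only [W, h.1, h.2.1, if_true]
      split_ifs with a b c c <;> first | rfl | exact absurd ((h.2.2 a).1 b) c | exact absurd ((h.2.2 a).2 c) b
    rcases i with _ | _ | i
    · simp [f, F]; omega
    · simp [f, F]; omega
    · obtain ⟨k, rfl | rfl⟩ := Nat.even_or_odd' i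
      · have e1 : f (2 * k + 1 + 1) = 2 * c k + 1 := by
          simp only [f]; rw [show (2 * k + 1 + 1 - 1) / 2 = k by omega]; simp; omega
        have e2 : f (2 * k + 1 + 1 + 1) = 2 * c (k + 1) := by
          simp only [f]; rw [show (2 * k + 1 + 1 + 1 - 1) / 2 = k + 1 by omega]; simp; omega
        have := c1 (k + 1)
        rw [e1, e2]
        refine ⟨.inr (.inr ⟨by omega, by omega, ?_⟩), by omega, by omega⟩
        rw [show (2 * c k + 1) / 2 = c k by omega, show 2 * c (k + 1) / 2 = c (k + 1) by omega]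
        exact c3 k (by omega)
      · have e1 : f (2 * k + 1 + 1 + 1) = 2 * c (k + 1) := by
          simp only [f]; rw [show (2 * k + 1 + 1 + 1 - 1) / 2 = k + 1 by omega]; simp; omega
        have e2 : f (2 * k + 1 + 1 + 1 + 1) = 2 * c (k + 1) + 1 := by
          simp only [f]; rw [show (2 * k + 1 + 1 + 1 + 1 - 1) / 2 = k + 1 by omega]; simp; omega
        have := c1 (k + 1)
        rw [e1, e2]
        exact ⟨.inl (by omega), by omega, by omega⟩
  intro H
  have := H (2 * a.n + 1) (fun i => ⟨f i, hf i⟩) (fun i => W a (f i) (f (i + 1))) (by omega) (Fin.ext ?_)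
    (fun i hi j hj e => ?_) (fun i hi => by rw [wt_red, E, if_pos (.inl (hF i hi).1)]) ?_
  · simp at this
  · simp only [f]; rw [show (2 * a.n + 1 - 1) / 2 = a.n by omega, c0, if_neg (by omega), if_neg (by omega)]; simp; omega
  · have e : f i = f j := congrArg Fin.val e
    have hi : i < 2 * a.n + 1 := hi
    have hj : j < 2 * a.n + 1 := hj
    have := c2 ((i - 1) / 2) (by omega) ((j - 1) / 2) (by omega)
    have := c1 ((i - 1) / 2)
    have := c1 ((j - 1) / 2)
    have hf' : ∀ i, (i = 1 ∧ f i = 2 * a.n) ∨ (i = 0 ∧ f i = 2 * c ((i - 1) / 2)) ∨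
        (1 < i ∧ f i = 2 * c ((i - 1) / 2) + (i + 1) % 2) := fun i => by
      rcases i with _ | _ | i <;> simp [f]
    have a1 := hf' i
    have a2 := hf' j
    omega
  · rw [← Int.cast_sum, Int.cast_lt_zero, sum_congr rfl fun i hi => (hF i (mem_range.1 hi)).2]
    have : ∀ m, ∑ i ∈ range (2 * m + 3), (if i = 0 then (a.n : ℤ) - 2 else if i % 2 = 1 ∧ i ≠ 1 then -1 else 0) =
        a.n - 2 - m := fun m => by
      induction m with
      | zero => simp [sum_range_succ]
      | succ m ih =>
        rw [show 2 * (m + 1) + 3 = 2 * m + 3 + 1 + 1 by ring, sum_range_succ, sum_range_succ, ih,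
          if_neg (by omega), if_pos (by omega), if_neg (by omega), if_neg (by omega)]
        push_cast; ring
    rw [show 2 * a.n + 1 = 2 * (a.n - 1) + 3 by omega, this]
    omega

theorem to_ham (a : Gr) (h : ¬ EvenNearlyConservative (red a)) : Ham a.G := by
  simp only [EvenNearlyConservative, not_forall] at h
  obtain ⟨k, g, w, hk, g0, gi, gw, hs, ho⟩ := h
  have h3 : 3 ≤ a.n := by
    by_contra h; have := (g 0).2; simp [red, show ¬ 3 ≤ a.1.length from h] at this
  have hl : (red a).length = 2 * a.n + 1 := by simp [red, h3]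
  let f : ℕ → ℕ := fun i => g i
  have f0 : f k = f 0 := congrArg Fin.val g0
  have fl : ∀ i, f i ≤ 2 * a.n := fun i => by have := (g i).2; simp only [f]; omega
  have fi : ∀ i < k, ∀ j < k, f i = f j → i = j := fun i hi j hj e => gi hi hj (Fin.ext e)
  have fi' : ∀ i < k, ∀ j < k, f (i + 1) = f (j + 1) → i = j := fun i hi j hj e => by
    have := fi (i + 1); have := fi 0 (by omega) (j + 1); have := fi (i + 1)
    by_cases h1 : i + 1 = k <;> by_cases h2 : j + 1 = k
    · omega
    · have := fi 0 (by omega) (j + 1) (by omega) (by rw [← f0, ← h1, e]); omega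
    · have := fi 0 (by omega) (i + 1) (by omega) (by rw [← f0, ← h2, e]); omega
    · have := fi (i + 1) (by omega) (j + 1) (by omega) e; omega
  have hw : ∀ i ∈ range k, w i = (W a (f i) (f (i + 1)) : ℚ) := fun i hi => by
    have := gw i (mem_range.1 hi)
    rw [wt_red, E] at this
    split_ifs at this
    exact (Option.some.inj this).symm
  rw [sum_congr rfl hw, ← Int.cast_sum, Int.cast_lt_zero] at hs
  let T := (range k).filter fun i => f i % 2 = 0 ∧ f (i + 1) = f i + 1
  have hT : ∀ s : Finset ℕ, (∀ i ∈ T, f i / 2 ∈ s) → T.card ≤ s.card := fun s h =>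
    card_le_card_of_injOn (fun i => f i / 2) h fun i hi j hj e => by
      simp only [T, coe_filter, mem_range, Set.mem_ofPred_eq] at hi hj e
      exact fi i hi.1 j hj.1 (by omega)
  have hT1 : ∀ i ∈ T, f i / 2 ∈ range a.n := fun i hi => by
    simp only [T, mem_filter, mem_range] at hi ⊢; have := fl (i + 1); omega
  have hW : ∀ j < k, W a (f j) (f (j + 1)) < T.card := fun j hj => by
    have : ∑ i ∈ range k, ((if i = j then W a (f j) (f (j + 1)) else 0) - if i ∈ T then (1 : ℤ) else 0) ≤
        ∑ i ∈ range k, W a (f i) (f (i + 1)) + if j ∈ T then -1 else 0 := by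
      rw [← sum_ite_eq_of_mem' (range k) j (fun _ => if j ∈ T then (-1 : ℤ) else 0) (mem_range.2 hj), ← sum_add_distrib]
      refine sum_le_sum fun i hi => ?_
      by_cases e : i = j
      · subst e; simp only [if_true]; split_ifs <;> omega
      · simp only [e, if_false, T, mem_filter, hi, true_and, W]
        by_cases c : F a (f i) (f (i + 1))
        · simp only [c, if_true]
          rcases c with c | c | c <;> split_ifs <;> omega
        · simp only [c, if_false]
          split_ifs <;> omega
    simp only [sum_sub_distrib, sum_ite_eq', mem_range, hj, if_true, sum_boole] at this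
    rw [show (range k).filter (· ∈ T) = T by ext; simp [T]] at this
    split_ifs at this <;> omega
  have hF : ∀ j < k, F a (f j) (f (j + 1)) := fun j hj => by
    by_contra h
    have := hW j hj
    have := hT _ hT1
    simp only [W, h, if_false, card_range] at *
    omega
  obtain ⟨j, hj, ej⟩ : ∃ j < k, f (j + 1) = 2 * a.n := by
    by_contra h
    push Not at h
    have : ∀ i ≤ k, (f i + i) % 2 = f 0 % 2 := fun i => by
      induction i with
      | zero => simp
      | succ i ih =>
        intro hi
        have := ih (by omega)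
        have := h i hi
        rcases hF i hi with h | h | h <;> omega
    have := this k le_rfl
    rw [Nat.not_even_iff] at ho
    omega
  have hj2 : f j % 2 = 0 ∧ f j < 2 * a.n := by
    rcases hF j hj with h | h | h
    · omega
    · omega
    · have := adj_lt h.2.2; omega
  have hall : ∀ v < a.n, (∀ i ∈ T, f i / 2 ≠ v) → v = f j / 2 := fun v hv h => by
    by_contra h'
    have := hW j hj
    have := hT ((range a.n).erase v |>.erase (f j / 2)) fun i hi => by
      refine mem_erase.2 ⟨fun e => ?_, mem_erase.2 ⟨h i hi, hT1 i hi⟩⟩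
      simp only [T, mem_filter, mem_range] at hi
      have := fi i hi.1 j hj (by omega)
      subst this; omega
    rw [card_erase_of_mem (by simp; omega), card_erase_of_mem (by simpa), card_range] at this
    have h5 : W a (f j) (f (j + 1)) = a.n - 2 := by rw [W, if_pos (hF j hj), if_pos ej]
    omega
  obtain ⟨j', hj', ej'⟩ : ∃ j' < k, f j' = 2 * a.n := by
    by_cases h : j + 1 = k
    · exact ⟨0, by omega, by rw [← f0, ← h, ej]⟩
    · exact ⟨j + 1, by omega, ej⟩
  have hz : f (j' + 1) = f j + 1 := by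
    have : f (j' + 1) % 2 = 1 := by rcases hF j' hj' with h | h | h <;> omega
    have := fl (j' + 1)
    have := hall (f (j' + 1) / 2) (by omega) fun i hi e => by
      simp only [T, mem_filter, mem_range] at hi
      have := fi' i hi.1 j' hj' (by omega)
      subst this; omega
    omega
  have hin : ∀ v < a.n, (∃ i < k, f i = 2 * v) ∧ ∃ i < k, f (i + 1) = 2 * v + 1 := fun v hv => by
    by_cases h : ∃ i ∈ T, f i / 2 = v
    · obtain ⟨i, hi, e⟩ := h
      simp only [T, mem_filter, mem_range] at hi
      exact ⟨⟨i, hi.1, by omega⟩, i, hi.1, by omega⟩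
    · push Not at h
      have := hall v hv h
      exact ⟨⟨j, hj, by omega⟩, j', hj', by omega⟩
  have hR : ∀ u : Fin a.n, ∃ v : Fin a.n, ∃ i < k, f i = 2 * u + 1 ∧ f (i + 1) = 2 * v := fun u => by
    obtain ⟨i, hi, e⟩ : ∃ i < k, f i = 2 * u + 1 := by
      obtain ⟨i, hi, e⟩ := (hin u u.2).2
      by_cases h : i + 1 = k
      · exact ⟨0, by omega, by rw [← f0, ← h, e]⟩
      · exact ⟨i + 1, by omega, e⟩
    rcases hF i hi with h | h | h
    · omega
    · omega
    · exact ⟨⟨_, (adj_lt h.2.2).2.1⟩, i, hi, e, by simp only; omega⟩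
  have hL : ∀ v : Fin a.n, ∃ u : Fin a.n, ∃ i < k, f i = 2 * u + 1 ∧ f (i + 1) = 2 * v := fun v => by
    obtain ⟨i, hi, e⟩ : ∃ i < k, f (i + 1) = 2 * v := by
      obtain ⟨i, hi, e⟩ := (hin v v.2).1
      cases i with
      | zero => exact ⟨k - 1, by omega, by rw [show k - 1 + 1 = k by omega, f0, e]⟩
      | succ i => exact ⟨i, by omega, e⟩
    rcases hF i hi with h | h | h
    · omega
    · omega
    · exact ⟨⟨_, (adj_lt h.2.2).1⟩, i, hi, by simp only; omega, e⟩
  choose R hR using hR
  choose L hL using hL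
  have hA : ∀ u, a.G.Adj u (R u) := fun u => by
    obtain ⟨i, hi, e1, e2⟩ := hR u
    rcases hF i hi with h | h | h
    · omega
    · omega
    · rw [← a.adjB_iff]; convert h.2.2 <;> omega
  have RL : ∀ u, R (L u) = u := fun u => by
    obtain ⟨i, hi, e1, e2⟩ := hL u
    obtain ⟨j, hj, e3, e4⟩ := hR (L u)
    have := fi i hi j hj (by omega)
    subst this; ext; omega
  have LR : ∀ u, L (R u) = u := fun u => by
    obtain ⟨i, hi, e1, e2⟩ := hR u
    obtain ⟨j, hj, e3, e4⟩ := hL (R u)
    have := fi' i hi j hj (by omega)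
    subst this; ext; omega
  have con : ∀ S : Fin a.n → Prop, (∀ u, S u ↔ S (R u)) → ∀ u v, S u → S v := fun S hS => by
    let S' : ℕ → Prop := fun p => ∀ u : Fin a.n, u.1 = (if p = 2 * a.n then f j else p) / 2 → S u
    have h1 : ∀ i ≤ k, (S' (f i) ↔ S' (f 0)) := fun i => by
      induction i with
      | zero => simp
      | succ i ih =>
        intro hi
        rw [← ih (by omega)]
        rcases hF i hi with h | h | h
        · rcases h.2.2 with h' | h'
          · simp only [S']; rw [if_neg (by omega), if_neg (by omega), show f (i + 1) / 2 = f i / 2 by omega]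
          · obtain rfl := fi' i hi j hj (by omega)
            simp only [S']; rw [if_pos h', if_neg (by omega)]
        · obtain rfl := fi i hi j' hj' (by omega)
          simp only [S']; rw [if_pos h.1, if_neg (by omega), show f (i + 1) / 2 = f j / 2 by omega]
        · have h2 := adj_lt h.2.2
          obtain ⟨i', hi', e1, e2⟩ := hR ⟨_, h2.1⟩
          obtain rfl := fi i hi i' hi' (by simp only at e1; omega)
          simp only [S']; rw [if_neg (by omega), if_neg (by omega)]
          refine ⟨fun h u e => ?_, fun h u e => ?_⟩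
          · obtain rfl : u = ⟨_, h2.1⟩ := Fin.ext e
            exact (hS _).2 (h _ (by omega))
          · obtain rfl : u = R ⟨_, h2.1⟩ := Fin.ext (by omega)
            exact (hS _).1 (h _ rfl)
    have h2 : ∀ u : Fin a.n, S u ↔ S' (f 0) := fun u => by
      obtain ⟨i, hi, e⟩ := (hin u u.2).1
      rw [← h1 i hi.le]
      simp only [S']; rw [if_neg (by omega), e]
      exact ⟨fun h v e => by rwa [show v = u from Fin.ext (by omega)], fun h => h u (by omega)⟩
    exact fun u v h => (h2 v).2 ((h2 u).1 h)
  refine ham_of _ R L ⟨0, by omega⟩ (fun u => ⟨hA u, by simpa only [RL] using (hA (L u)).symm, fun e => ?_,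
    .inr (LR u), .inl (RL u)⟩) fun S h h0 u => con S (fun u => (h u).1) _ u h0
  have := fun v => con (fun y => y = u ∨ y = R u) (fun y => ⟨?_, ?_⟩) u v (.inl rfl)
  · have a0 := this ⟨0, by omega⟩
    have a1 := this ⟨1, by omega⟩
    have a2 := this ⟨2, by omega⟩
    simp only [Fin.ext_iff] at a0 a1 a2
    omega
  · rintro (rfl | rfl)
    · exact .inr rfl
    · exact .inl (by rw [e, RL])
  · rintro (h | h)
    · exact .inr (by rw [e, ← h, LR])
    · exact .inl (by rw [← LR y, h, LR])

set_option synthInstance.maxSize 2000 in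
theorem result : NPHard fun a : {a : List (List (Option ℚ)) // Symmetric a} => ¬ EvenNearlyConservative a.1 := by
  have h1 : PT fun p : Gr × ℕ × ℕ => decide (F p.1 p.2.1 p.2.2) := by unfold F; fun_prop
  have h2 : PT fun p : Gr × ℕ × ℕ => W p.1 p.2.1 p.2.2 := by unfold W F; fun_prop
  have h3 : PT fun p : Gr × ℕ × ℕ => E p.1 p.2.1 p.2.2 := by unfold E F; fun_prop
  have h4 : PT red := by unfold red; fun_prop
  exact ham_hard.red ⟨fun a => ⟨red a, symm a⟩, PT.subtype h4 symm, fun a => ⟨of_ham a, to_ham a⟩⟩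

end Pool.Agent.Results.MP_d994ca_lc.Hard
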